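import Pool.Agent.helper50.BS.SpecC

set_option autoImplicit false

open Finset

open scoped Classical

noncomputable section

namespace Pool.Agent.BS

/-- CG1. The union of a linked family of connected sets is connected. -/
theorem CG1 : CG1_stmt := by
  intro X adj G hsym hconn hlink
  obtain ⟨hG, hL⟩ := hlink
  refine ⟨?_, ?_⟩
  · obtain ⟨K0, hK0⟩ := hG
    obtain ⟨a, ha⟩ := (hconn K0 hK0).1
    exact ⟨a, Finset.mem_biUnion.2 ⟨K0, hK0, ha⟩⟩
  · intro a ha b hb
    have hmono : ∀ K ∈ G, ∀ u v, Reach adj K u v → Reach adj (G.biUnion id) u v := by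
      intro K hK u v huv
      refine Relation.ReflTransGen.mono ?_ _ _ huv
      rintro u' v' ⟨h1, h2⟩
      exact ⟨h1, Finset.mem_biUnion.2 ⟨K, hK, h2⟩⟩
    obtain ⟨K, hK, haK⟩ := Finset.mem_biUnion.1 ha
    obtain ⟨L, hLG, hbL⟩ := Finset.mem_biUnion.1 hb
    have haK' : a ∈ K := haK
    have hbL' : b ∈ L := hbL
    by_contra hcon
    have hK1 : K ∈ G.filter (fun K' => ∀ x ∈ K', Reach adj (G.biUnion id) a x) := by
      simp only [Finset.mem_filter]
      exact ⟨hK, fun x hx => hmono K hK a x ((hconn K hK).2 a haK' x hx)⟩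
    have hL2 : L ∈ G \ G.filter (fun K' => ∀ x ∈ K', Reach adj (G.biUnion id) a x) := by
      simp only [Finset.mem_sdiff, Finset.mem_filter]
      exact ⟨hLG, fun h => hcon (h.2 b hbL')⟩
    obtain ⟨K', hK', L', hL', x, hx, y, hy, hxy⟩ := hL _ _ ⟨K, hK1⟩ ⟨L, hL2⟩
      Finset.disjoint_sdiff (by
        ext z
        simp only [Finset.mem_union, Finset.mem_sdiff, Finset.mem_filter]
        tauto)
    simp only [Finset.mem_filter] at hK'
    simp only [Finset.mem_sdiff, Finset.mem_filter] at hL'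
    have hyr : Reach adj (G.biUnion id) a y := by
      rcases hxy with rfl | h
      · exact hK'.2 x hx
      · exact (hK'.2 x hx).tail ⟨h, Finset.mem_biUnion.2 ⟨L', hL'.1, hy⟩⟩
    exact hL'.2 ⟨hL'.1, fun z hz => hyr.trans (hmono L' hL'.1 y z ((hconn L' hL'.1).2 y hy z hz))⟩

end Pool.Agent.BS

end
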