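import Pool.Agent.helper50.BS.SpecC

set_option autoImplicit false

open Finset

open scoped Classical

noncomputable section

namespace Pool.Agent.BS

/-- CX1. Factorisation of the partition function. -/
theorem CX1 : CX1_stmt := by
  intro P R _ ic ω F1 F2 hsym hd hic
  unfold Xi
  rw [Finset.sum_mul_sum, ← Finset.sum_product']
  refine Finset.sum_bij' (fun T _ => (T ∩ F1, T ∩ F2)) (fun p _ => p.1 ∪ p.2) ?_ ?_ ?_ ?_ ?_
  · intro T hT
    simp only [Finset.mem_filter, Finset.mem_powerset] at hT
    simp only [Finset.mem_product, Finset.mem_filter, Finset.mem_powerset]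
    exact ⟨⟨Finset.inter_subset_right, fun a ha b hb hab =>
        hT.2 a (Finset.mem_inter.1 ha).1 b (Finset.mem_inter.1 hb).1 hab⟩,
      Finset.inter_subset_right, fun a ha b hb hab =>
        hT.2 a (Finset.mem_inter.1 ha).1 b (Finset.mem_inter.1 hb).1 hab⟩
  · intro p hp
    simp only [Finset.mem_product, Finset.mem_filter, Finset.mem_powerset] at hp
    simp only [Finset.mem_filter, Finset.mem_powerset]
    obtain ⟨⟨h1, h2⟩, h3, h4⟩ := hp
    refine ⟨Finset.union_subset_union h1 h3, fun a ha b hb hab => ?_⟩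
    rcases Finset.mem_union.1 ha with ha | ha <;> rcases Finset.mem_union.1 hb with hb | hb
    · exact h2 a ha b hb hab
    · exact hic a (h1 ha) b (h3 hb)
    · exact fun h => hic b (h1 hb) a (h3 ha) (hsym a b h)
    · exact h4 a ha b hb hab
  · intro T hT
    simp only [Finset.mem_filter, Finset.mem_powerset] at hT
    show T ∩ F1 ∪ T ∩ F2 = T
    rw [← Finset.inter_union_distrib_left]
    exact Finset.inter_eq_left.2 hT.1
  · intro p hp
    simp only [Finset.mem_product, Finset.mem_filter, Finset.mem_powerset] at hp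
    obtain ⟨⟨h1, -⟩, h3, -⟩ := hp
    show ((p.1 ∪ p.2) ∩ F1, (p.1 ∪ p.2) ∩ F2) = p
    have e1 : (p.1 ∪ p.2) ∩ F1 = p.1 := by
      rw [Finset.union_inter_distrib_right, Finset.inter_eq_left.2 h1,
        Finset.disjoint_iff_inter_eq_empty.1 (hd.symm.mono_left h3), Finset.union_empty]
    have e2 : (p.1 ∪ p.2) ∩ F2 = p.2 := by
      rw [Finset.union_inter_distrib_right, Finset.inter_eq_left.2 h3,
        Finset.disjoint_iff_inter_eq_empty.1 (hd.mono_left h1), Finset.empty_union]
    rw [e1, e2]
  · intro T hT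
    simp only [Finset.mem_filter, Finset.mem_powerset] at hT
    show ∏ a ∈ T, ω a = (∏ a ∈ T ∩ F1, ω a) * ∏ a ∈ T ∩ F2, ω a
    rw [← Finset.prod_union (hd.mono Finset.inter_subset_right Finset.inter_subset_right),
      ← Finset.inter_union_distrib_left, Finset.inter_eq_left.2 hT.1]

end Pool.Agent.BS

end
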